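import Mathlib
import Pool.Agent.Helper35.HSF.StG

/-! Project HSF, module BAL: touching balls (Blaschke). -/

set_option autoImplicit false

namespace Helper75.HSF

open Helper35.HSF Helper35.MS Helper35.PI Helper35.PI2 Helper32.CL
open scoped ContDiff Manifold Topology ENNReal BigOperators
open MeasureTheory Set Filter

theorem hBAL (hSHP : StSHP) (hBLI : StBLI) (hBLC : StBLC) (hHHY : StHHY) : StBAL := by
  intro n hn2 M _ _ _ _ _ _ T F ν ts ε x C α hF η hη hη2
  obtain ⟨t₂, ht₂, hS⟩ := hSHP n hn2 M T F ν ts ε x C α hF (η / 2) (by linarith)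
  refine ⟨t₂, ht₂, ?_⟩
  intro t ht y z
  have hts : t ∈ Ico ts T := ⟨le_trans ht₂.1 ht.1, ht.2⟩
  have htJ : t ∈ Ioo (0 : ℝ) T := ⟨lt_of_lt_of_le hF.d.ts0.1 hts.1, ht.2⟩
  have hr0 : 0 < rr n t := hF.d.fl.r0 t htJ
  have hρ : 0 < Real.sqrt (rr n t) := Real.sqrt_pos.mpr hr0
  have hHyp : Hyp n (Real.sqrt (rr n t)) t F ν := hHHY n M (Ioo 0 T) F ν hF.d.fl t htJ
  have hnpos : (0 : ℝ) < n := by
    have : 0 < n := by omega
    exact_mod_cast this
  have hσ : 0 < Real.sqrt (2 * n * (T - t)) := by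
    apply Real.sqrt_pos.mpr
    have : 0 < T - t := by linarith [ht.2]
    positivity
  set σ := Real.sqrt (2 * n * (T - t)) with hσdef
  set ρ := Real.sqrt (rr n t) with hρdef
  have hb : ∀ q, ∀ c : Fin n → ℝ, gn F q t c = 1 →
      1 - η / 2 ≤ σ * hn F ν q t c ∧ σ * hn F ν q t c ≤ 1 + η / 2 := by
    intro q c hc
    have h := abs_le.mp (hS t ht q c hc)
    constructor <;> linarith [h.1, h.2]
  have hlow : ∀ q, ∀ c : Fin n → ℝ, gn F q t c = 1 → (1 - η) / σ < hn F ν q t c := by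
    intro q c hc
    rw [div_lt_iff₀ hσ]
    have h := (hb q c hc).1
    have h2 : hn F ν q t c * σ = σ * hn F ν q t c := mul_comm _ _
    rw [h2]
    linarith
  have hup : ∀ q, ∀ c : Fin n → ℝ, gn F q t c = 1 → hn F ν q t c < (1 + η) / σ := by
    intro q c hc
    rw [lt_div_iff₀ hσ]
    have h := (hb q c hc).2
    have h2 : hn F ν q t c * σ = σ * hn F ν q t c := mul_comm _ _
    rw [h2]
    linarith
  have hκ : 0 < (1 - η) / σ := div_pos (by linarith) hσ
  have hτ : 0 < ρ * ((1 + η) / σ) := mul_pos hρ (div_pos (by linarith) hσ)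
  constructor
  · have hpos : ∀ a b, F b t ≠ F a t → 0 < (inner ℝ (F b t - F a t) (ν a t) : ℝ) := by
      intro a b hab
      have hz : zch F ν a b t ∈ ZS n F ν a t := Or.inl ⟨b, hab, rfl⟩
      have h1 := hF.d.pos t hts a _ hz
      have h2 : 0 < zch F ν a b t := lt_of_lt_of_le hF.d.ε0 h1
      unfold zch at h2
      have h3 : 0 < ‖F b t - F a t‖ ^ 2 := by
        have : F b t - F a t ≠ 0 := sub_ne_zero.mpr hab
        have h4 : 0 < ‖F b t - F a t‖ := norm_pos_iff.mpr this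
        positivity
      rcases div_pos_iff.mp h2 with h5 | h5
      · linarith [h5.1]
      · exact absurd h3 (not_lt.mpr h5.2.le)
    have h := hBLC n hn2 M ρ t F ν hHyp ((1 - η) / σ) hκ hlow (hF.d.inj t hts)
      (fun a b hab => hpos a b hab) z y
    have h2 : σ * ((1 - η) / σ * ‖F y t - F z t‖ ^ 2)
        ≤ σ * (2 * (inner ℝ (F y t - F z t) (ν z t) : ℝ)) := mul_le_mul_of_nonneg_left h hσ.le
    have h3 : σ * ((1 - η) / σ * ‖F y t - F z t‖ ^ 2) = (1 - η) * ‖F y t - F z t‖ ^ 2 := by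
      field_simp
    rw [h3] at h2
    calc (1 - η) * ‖F y t - F z t‖ ^ 2 ≤ σ * (2 * (inner ℝ (F y t - F z t) (ν z t) : ℝ)) := h2
      _ = 2 * σ * (inner ℝ (F y t - F z t) (ν z t) : ℝ) := by ring
  · have h := (hBLI n hn2 M ρ t F ν hHyp (ρ * ((1 + η) / σ)) hτ).1 (by
      intro q c hc
      have h1 := hlow q c hc
      have h2 := hup q c hc
      have h3 : 0 < hn F ν q t c := lt_trans hκ h1
      constructor
      · have h4 : 0 < 1 / (ρ * ((1 + η) / σ)) := one_div_pos.mpr hτ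
        have h5 : 0 < ρ * hn F ν q t c := mul_pos hρ h3
        linarith
      · exact mul_lt_mul_of_pos_left h2 hρ) z y
    have h2 : σ / ρ * (2 * ρ * (inner ℝ (F y t - F z t) (ν z t) : ℝ))
        ≤ σ / ρ * (ρ * ((1 + η) / σ) * ‖F y t - F z t‖ ^ 2) :=
      mul_le_mul_of_nonneg_left h (div_pos hσ hρ).le
    have h3 : σ / ρ * (2 * ρ * (inner ℝ (F y t - F z t) (ν z t) : ℝ))
        = 2 * σ * (inner ℝ (F y t - F z t) (ν z t) : ℝ) := by
      field_simp
    have h4 : σ / ρ * (ρ * ((1 + η) / σ) * ‖F y t - F z t‖ ^ 2) = (1 + η) * ‖F y t - F z t‖ ^ 2 := by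
      field_simp
    rw [h3, h4] at h2
    exact h2

end Helper75.HSF
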